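import Mathlib

/-!
# Rings of diamonds: long odd holes do not control bounded clique minors

For every `m ≥ 3` a ring of `m + 1` diamonds, closed up by one edge, has chromatic number four, no
model of the complete graph on four vertices with branch sets of at most `m` vertices, and no
induced cycle with more than `2 * m + 3 ≤ 3 * m` vertices.
-/

set_option autoImplicit false

open SimpleGraph

namespace Pool.Agent.Results.MP_85b484_co.DiamondRings

/-- `G` has a model of the complete graph on `t` vertices in which every branch set has at most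
`m` vertices: pairwise disjoint nonempty connected sets of vertices, any two joined by an edge. -/
def HasModel {V : Type} (m t : ℕ) (G : SimpleGraph V) : Prop :=
  ∃ B : Fin t → Finset V,
    (∀ i, (B i).Nonempty ∧ (B i).card ≤ m ∧ (G.induce (B i : Set V)).Connected) ∧
    ∀ i j, i ≠ j → Disjoint (B i) (B j) ∧ ∃ u ∈ B i, ∃ v ∈ B j, G.Adj u v

/-- The largest `t` for which there is such a model. -/
noncomputable def had {V : Type} (m : ℕ) (G : SimpleGraph V) : ℕ := sSup {t | HasModel m t G}

/-- The class `C_m`: `χ(H) ≤ had_m(H)` for every induced subgraph `H`. -/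
def InClass {V : Type} (m : ℕ) (G : SimpleGraph V) : Prop :=
  ∀ S : Set V, (G.induce S).chromaticNumber ≤ (had m (G.induce S) : ℕ∞)

/-- Some induced subgraph of `G` is isomorphic to the cycle on `l` vertices. -/
def HasInducedCycle {V : Type} (l : ℕ) (G : SimpleGraph V) : Prop :=
  ∃ S : Set V, Nonempty (cycleGraph l ≃g G.induce S)

/-- No induced subgraph is isomorphic to `C_(2k+1)` for an integer `k ≥ 3m/2`. -/
def NoLongOddCycle {V : Type} (m : ℕ) (G : SimpleGraph V) : Prop :=
  ∀ k : ℕ, 3 * m ≤ 2 * k → ¬ HasInducedCycle (2 * k + 1) G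

/-! ### The graph -/

/-- Vertices: one for each of the positions `0, …, 2m + 2`, and a second one for each odd
position. -/
abbrev Vert (m : ℕ) : Type := Fin (2 * m + 3) ⊕ Fin (m + 1)

/-- The position of a vertex. -/
def pos {m : ℕ} : Vert m → ℕ
  | .inl p => p
  | .inr i => 2 * i + 1

/-- Cyclically consecutive positions, or the same one. -/
def Near (m a b : ℕ) : Prop :=
  a = b ∨ a + 1 = b ∨ b + 1 = a ∨ (a = 0 ∧ b = 2 * m + 2) ∨ (a = 2 * m + 2 ∧ b = 0)

/-- The ring of `m + 1` diamonds. -/
def diamondRing (m : ℕ) : SimpleGraph (Vert m) where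
  Adj x y := x ≠ y ∧ Near m (pos x) (pos y)
  symm := ⟨fun x y h => ⟨h.1.symm, by unfold Near at *; omega⟩⟩
  loopless := ⟨fun x h => h.1 rfl⟩

theorem adj_iff {m : ℕ} {x y : Vert m} : (diamondRing m).Adj x y ↔ x ≠ y ∧ Near m (pos x) (pos y) :=
  Iff.rfl

theorem pos_le {m : ℕ} (x : Vert m) : pos x ≤ 2 * m + 2 := by
  rcases x with p | i
  · have := p.2
    simp only [pos]
    omega
  · have := i.2
    simp only [pos]
    omega

/-- The only vertices at a given position. -/
theorem eq_of_pos {m : ℕ} (x : Vert m) (hp : pos x < 2 * m + 3) :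
    x = .inl ⟨pos x, hp⟩ ∨ ∃ h : (pos x - 1) / 2 < m + 1, pos x % 2 = 1 ∧
      x = .inr ⟨(pos x - 1) / 2, h⟩ := by
  rcases x with p | i
  · exact Or.inl rfl
  · refine Or.inr ⟨?_, ?_, ?_⟩
    · have := i.2
      simp only [pos]
      omega
    · simp only [pos]
      omega
    · have : (2 * (i : ℕ) + 1 - 1) / 2 = i := by omega
      simp only [pos, this]

theorem eq_of_even {m : ℕ} {x y : Vert m} (h : pos x = pos y) (he : pos x % 2 = 0) : x = y := by
  rcases x with p | i <;> rcases y with q | j
  · simp only [pos] at h
    exact congrArg _ (Fin.ext h)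
  · simp only [pos] at h he
    omega
  · simp only [pos] at h he
    omega
  · simp only [pos] at h he
    omega

/-! ### Connected sets -/

/-- A property which is passed on along the edges inside a connected set. -/
theorem spread {V : Type} {G : SimpleGraph V} {S : Finset V}
    (hS : (G.induce (S : Set V)).Connected) (P : V → Prop)
    (hP : ∀ x ∈ S, ∀ y ∈ S, G.Adj x y → P x → P y) {a b : V} (ha : a ∈ S) (hb : b ∈ S)
    (h : P a) : P b := by
  obtain ⟨w⟩ := hS.preconnected ⟨a, ha⟩ ⟨b, hb⟩
  have key : ∀ (x y : (S : Set V)), (G.induce (S : Set V)).Walk x y → P x → P y := by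
    intro x y w
    induction w with
    | nil => exact id
    | @cons x y _ e _ ih => exact fun h => ih (hP x x.2 y y.2 e h)
  exact key _ _ w h

/-- A connected set with a vertex at height one reaches at most its number of vertices. -/
theorem height {V : Type} {G : SimpleGraph V} {S : Finset V}
    (hS : (G.induce (S : Set V)).Connected) (t : V → ℕ)
    (ht : ∀ x ∈ S, ∀ y ∈ S, G.Adj x y → t y ≤ t x + 1) {a b : V} (ha : a ∈ S) (hb : b ∈ S)
    (h : t a = 1) : t b ≤ S.card := by
  classical
  have h1 : Finset.Icc 1 (t b) ⊆ S.image t := by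
    intro v hv
    rw [Finset.mem_Icc] at hv
    by_contra hne
    have hne' : ∀ x ∈ S, t x ≠ v := by
      intro x hx hxv
      exact hne (Finset.mem_image.2 ⟨x, hx, hxv⟩)
    have h2 : t b < v := spread hS (fun x => t x < v) (by
      intro x hx y hy e hxv
      have h3 := ht x hx y hy e
      have h4 := hne' y hy
      show t y < v
      have h5 : t x < v := hxv
      omega) ha hb (by
      show t a < v
      have := hne' a ha
      omega)
    omega
  have h2 := Finset.card_le_card h1
  have h3 : (S.image t).card ≤ S.card := Finset.card_image_le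
  rw [Nat.card_Icc] at h2
  omega

/-! ### No model of order four -/

/-- A connected set without vertices at even positions lies at one odd position. -/
theorem one_bag {m : ℕ} {S : Finset (Vert m)}
    (hS : ((diamondRing m).induce (S : Set (Vert m))).Connected) (h : ∀ x ∈ S, pos x % 2 = 1)
    {a b : Vert m} (ha : a ∈ S) (hb : b ∈ S) : pos b = pos a := by
  refine spread hS (fun x => pos x = pos a) (fun x hx y hy e hxa => ?_) ha hb rfl
  have h1 := h x hx
  have h2 := h y hy
  have h3 := (adj_iff.1 e).2
  have h4 : pos x = pos a := hxa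
  show pos y = pos a
  unfold Near at h3
  omega

theorem no_model {m : ℕ} : ¬ HasModel m 4 (diamondRing m) := by
  classical
  rintro ⟨B, h1, h2⟩
  have hdis : ∀ {i j : Fin 4} {x : Vert m}, x ∈ B i → x ∈ B j → i = j := by
    intro i j x hi hj
    by_contra hne
    exact Finset.disjoint_left.1 (h2 i j hne).1 hi hj
  by_cases hbig : ∀ i, ∃ x ∈ B i, pos x % 2 = 0
  · -- every branch set meets an even position
    choose s hs hs2 using hbig
    have hinj : Function.Injective fun i => pos (s i) := by
      intro i j hij
      have h3 : s i = s j := eq_of_even hij (hs2 i)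
      exact hdis (hs i) (h3 ▸ hs j)
    have hmono := Tuple.monotone_sort fun i => pos (s i)
    set e : Fin 4 → Fin 4 := ⇑(Tuple.sort fun i => pos (s i)) with he
    have hmono' : StrictMono fun i => pos (s (e i)) := by
      refine hmono.strictMono_of_injective ?_
      exact hinj.comp (Tuple.sort fun i => pos (s i)).injective
    have h01 : pos (s (e 0)) < pos (s (e 1)) := hmono' (by decide)
    have h12 : pos (s (e 1)) < pos (s (e 2)) := hmono' (by decide)
    have h23 : pos (s (e 2)) < pos (s (e 3)) := hmono' (by decide)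
    have hne : ∀ {i j : Fin 4}, i ≠ j → e i ≠ e j := by
      intro i j hij h
      exact hij ((Tuple.sort fun i => pos (s i)).injective h)
    -- a branch set avoids the even positions of the others
    have havoid : ∀ {i j : Fin 4}, i ≠ j → ∀ x ∈ B (e i), pos x ≠ pos (s (e j)) := by
      intro i j hij x hx hpos
      have h3 : s (e j) = x := eq_of_even hpos.symm (hs2 _)
      exact hne hij (hdis hx (h3 ▸ hs (e j)))
    obtain ⟨_, u, hu, v, hv, huv⟩ := h2 (e 0) (e 2) (hne (by decide))
    have hlast := pos_le (s (e 3))
    have hP0 : ¬ (pos (s (e 1)) < pos u ∧ pos u < pos (s (e 3))) := by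
      refine spread (h1 (e 0)).2.2
        (fun x => ¬ (pos (s (e 1)) < pos x ∧ pos x < pos (s (e 3)))) ?_ (hs (e 0)) hu ?_
      · intro x hx y hy e' hxP
        have ha := havoid (i := 0) (j := 1) (by decide) x hx
        have hb := havoid (i := 0) (j := 3) (by decide) x hx
        have hc := havoid (i := 0) (j := 1) (by decide) y hy
        have hd := havoid (i := 0) (j := 3) (by decide) y hy
        have hn := (adj_iff.1 e').2
        have hxP' : ¬ (pos (s (e 1)) < pos x ∧ pos x < pos (s (e 3))) := hxP
        show ¬ (pos (s (e 1)) < pos y ∧ pos y < pos (s (e 3)))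
        unfold Near at hn
        omega
      · show ¬ (pos (s (e 1)) < pos (s (e 0)) ∧ pos (s (e 0)) < pos (s (e 3)))
        omega
    have hP2 : pos (s (e 1)) < pos v ∧ pos v < pos (s (e 3)) := by
      refine spread (h1 (e 2)).2.2
        (fun x => pos (s (e 1)) < pos x ∧ pos x < pos (s (e 3))) ?_ (hs (e 2)) hv ?_
      · intro x hx y hy e' hxP
        have ha := havoid (i := 2) (j := 1) (by decide) x hx
        have hb := havoid (i := 2) (j := 3) (by decide) x hx
        have hc := havoid (i := 2) (j := 1) (by decide) y hy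
        have hd := havoid (i := 2) (j := 3) (by decide) y hy
        have hn := (adj_iff.1 e').2
        have hxP' : pos (s (e 1)) < pos x ∧ pos x < pos (s (e 3)) := hxP
        show pos (s (e 1)) < pos y ∧ pos y < pos (s (e 3))
        unfold Near at hn
        omega
      · show pos (s (e 1)) < pos (s (e 2)) ∧ pos (s (e 2)) < pos (s (e 3))
        omega
    have ha := havoid (i := 0) (j := 1) (by decide) u hu
    have hb := havoid (i := 0) (j := 3) (by decide) u hu
    have hn := (adj_iff.1 huv).2
    unfold Near at hn
    omega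
  · -- some branch set lies at one odd position
    push Not at hbig
    obtain ⟨i, hi⟩ := hbig
    have hi' : ∀ x ∈ B i, pos x % 2 = 1 := fun x hx => by
      have := hi x hx
      omega
    obtain ⟨a, ha⟩ := (h1 i).1
    have hodd := hi' a ha
    have hle := pos_le a
    -- one vertex in each branch set, near position `pos a`
    have hw : ∀ j, ∃ x ∈ B j, pos x = pos a ∨ pos x + 1 = pos a ∨ pos x = pos a + 1 := by
      intro j
      by_cases hij : i = j
      · subst hij
        exact ⟨a, ha, Or.inl rfl⟩
      · obtain ⟨_, u, hu, v, hv, huv⟩ := h2 i j hij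
        refine ⟨v, hv, ?_⟩
        have h3 := one_bag (h1 i).2.2 hi' ha hu
        have hn := (adj_iff.1 huv).2
        unfold Near at hn
        omega
    choose w hwB hw2 using hw
    have hwinj : Function.Injective w := by
      intro j k hjk
      exact hdis (hwB j) (hjk ▸ hwB k)
    -- the four vertices near that position
    have hp1 : pos a - 1 < 2 * m + 3 := by omega
    have hp2 : pos a < 2 * m + 3 := by omega
    have hp3 : pos a + 1 < 2 * m + 3 := by omega
    have hp4 : (pos a - 1) / 2 < m + 1 := by omega
    set T : Finset (Vert m) := {.inl ⟨pos a - 1, hp1⟩, .inl ⟨pos a, hp2⟩, .inl ⟨pos a + 1, hp3⟩,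
      .inr ⟨(pos a - 1) / 2, hp4⟩} with hT
    have hTcard : T.card ≤ 4 := Finset.card_le_four
    have hsub : Finset.univ.image w ⊆ T := by
      intro x hx
      obtain ⟨j, _, rfl⟩ := Finset.mem_image.1 hx
      have h3 := hw2 j
      have h4 := pos_le (w j)
      rcases eq_of_pos (w j) (by omega) with h5 | ⟨h5, h6, h7⟩
      · rw [hT]
        simp only [Finset.mem_insert, Finset.mem_singleton]
        rcases h3 with h3 | h3 | h3
        · right; left
          rw [h5]
          exact congrArg _ (Fin.ext h3)
        · left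
          rw [h5]
          exact congrArg _ (Fin.ext (by show pos (w j) = pos a - 1; omega))
        · right; right; left
          rw [h5]
          exact congrArg _ (Fin.ext h3)
      · rw [hT]
        simp only [Finset.mem_insert, Finset.mem_singleton]
        right; right; right
        rw [h7]
        refine congrArg _ (Fin.ext ?_)
        show (pos (w j) - 1) / 2 = (pos a - 1) / 2
        have : pos (w j) = pos a := by omega
        rw [this]
    have heq : Finset.univ.image w = T := by
      refine Finset.eq_of_subset_of_card_le hsub ?_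
      rw [Finset.card_image_of_injective _ hwinj, Finset.card_univ, Fintype.card_fin]
      exact hTcard
    have hmem : ∀ x ∈ T, ∃ j, w j = x := by
      intro x hx
      rw [← heq] at hx
      obtain ⟨j, _, hj⟩ := Finset.mem_image.1 hx
      exact ⟨j, hj⟩
    obtain ⟨j1, hj1⟩ := hmem (.inl ⟨pos a - 1, hp1⟩) (by rw [hT]; simp)
    obtain ⟨j3, hj3⟩ := hmem (.inl ⟨pos a + 1, hp3⟩) (by rw [hT]; simp)
    obtain ⟨j2, hj2⟩ := hmem (.inl ⟨pos a, hp2⟩) (by rw [hT]; simp)
    obtain ⟨j4, hj4⟩ := hmem (.inr ⟨(pos a - 1) / 2, hp4⟩) (by rw [hT]; simp)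
    have hpj1 : pos (w j1) = pos a - 1 := by rw [hj1]; rfl
    have hpj3 : pos (w j3) = pos a + 1 := by rw [hj3]; rfl
    have hpj2 : pos (w j2) = pos a := by rw [hj2]; rfl
    have hpj4 : pos (w j4) = pos a := by
      rw [hj4]
      show 2 * ((pos a - 1) / 2) + 1 = pos a
      omega
    have hne13 : j1 ≠ j3 := fun h => by
      rw [h] at hpj1
      omega
    -- the two outer branch sets avoid position `pos a`
    have hav : ∀ j, j ≠ j2 → j ≠ j4 → ∀ x ∈ B j, pos x ≠ pos a := by
      intro j hja hjb x hx hpos
      have h4 := pos_le x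
      rcases eq_of_pos x (by omega) with h5 | ⟨h5, h6, h7⟩
      · have h8 : x = w j2 := by
          rw [hj2, h5]
          exact congrArg _ (Fin.ext hpos)
        exact hja (hdis hx (h8 ▸ hwB j2))
      · have h8 : x = w j4 := by
          rw [hj4, h7]
          refine congrArg _ (Fin.ext ?_)
          show (pos x - 1) / 2 = (pos a - 1) / 2
          rw [hpos]
        exact hjb (hdis hx (h8 ▸ hwB j4))
    have hav1 := hav j1 (fun h => by rw [h] at hpj1; omega) (fun h => by rw [h] at hpj1; omega)
    have hav3 := hav j3 (fun h => by rw [h] at hpj3; omega) (fun h => by rw [h] at hpj3; omega)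
    obtain ⟨_, u, hu, v, hv, huv⟩ := h2 j1 j3 hne13
    -- heights seen from position `pos a`
    let t : Vert m → ℕ := fun x =>
      if pos a < pos x then pos x - pos a else pos x + (2 * m + 3) - pos a
    have hv1 : t v ≤ (B j3).card := by
      refine height (h1 j3).2.2 t (fun x hx y hy e => ?_) (hwB j3) hv ?_
      · have hn := (adj_iff.1 e).2
        have hxa := hav3 x hx
        have hya := hav3 y hy
        have hx2 := pos_le x
        have hy2 := pos_le y
        show (if pos a < pos y then pos y - pos a else pos y + (2 * m + 3) - pos a) ≤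
          (if pos a < pos x then pos x - pos a else pos x + (2 * m + 3) - pos a) + 1
        unfold Near at hn
        split_ifs <;> omega
      · show (if pos a < pos (w j3) then pos (w j3) - pos a
          else pos (w j3) + (2 * m + 3) - pos a) = 1
        rw [hpj3, if_pos (by omega)]
        omega
    have hu1 : 2 * m + 3 - t u ≤ (B j1).card := by
      refine height (h1 j1).2.2 (fun x => 2 * m + 3 - t x) (fun x hx y hy e => ?_) (hwB j1) hu ?_
      · have hn := (adj_iff.1 e).2
        have hxa := hav1 x hx
        have hya := hav1 y hy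
        have hx2 := pos_le x
        have hy2 := pos_le y
        show 2 * m + 3 - (if pos a < pos y then pos y - pos a else pos y + (2 * m + 3) - pos a) ≤
          2 * m + 3 -
            (if pos a < pos x then pos x - pos a else pos x + (2 * m + 3) - pos a) + 1
        unfold Near at hn
        split_ifs <;> omega
      · show 2 * m + 3 - (if pos a < pos (w j1) then pos (w j1) - pos a
          else pos (w j1) + (2 * m + 3) - pos a) = 1
        rw [hpj1, if_neg (by omega)]
        omega
    have hc1 := (h1 j1).2.1
    have hc3 := (h1 j3).2.1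
    have hn := (adj_iff.1 huv).2
    have hua := hav1 u hu
    have hva := hav3 v hv
    have hu2 := pos_le u
    have hv2 := pos_le v
    have hut : t u = if pos a < pos u then pos u - pos a else pos u + (2 * m + 3) - pos a := rfl
    have hvt : t v = if pos a < pos v then pos v - pos a else pos v + (2 * m + 3) - pos a := rfl
    rw [hut] at hu1
    rw [hvt] at hv1
    unfold Near at hn
    split_ifs at hu1 hv1 <;> omega

/-! ### Colourings -/

theorem vertex_at {m : ℕ} (p : ℕ) (hp : p < 2 * m + 3) : pos (.inl ⟨p, hp⟩ : Vert m) = p := rfl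

theorem fin3 : ∀ x y z w : Fin 3, x ≠ y → x ≠ z → y ≠ z → y ≠ w → z ≠ w → x = w := by decide

theorem not_colorable {m : ℕ} : ¬ (diamondRing m).Colorable 3 := by
  rintro ⟨c⟩
  have key : ∀ i : ℕ, ∀ h : 2 * i < 2 * m + 3,
      c (.inl ⟨2 * i, h⟩) = c (.inl ⟨0, by omega⟩) := by
    intro i
    induction i with
    | zero => intro h; rfl
    | succ i ih =>
      intro h
      rw [← ih (by omega)]
      have hi : i < m + 1 := by omega
      have adj : ∀ x y : Vert m, x ≠ y → Near m (pos x) (pos y) → c x ≠ c y :=
        fun x y hxy hn => c.valid (adj_iff.2 ⟨hxy, hn⟩)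
      symm
      refine fin3 _ (c (.inl ⟨2 * i + 1, by omega⟩)) (c (.inr ⟨i, hi⟩)) _ ?_ ?_ ?_ ?_ ?_
      · refine adj _ _ (by simp) ?_
        show Near m (2 * i) (2 * i + 1)
        unfold Near
        omega
      · refine adj _ _ (by simp) ?_
        show Near m (2 * i) (2 * i + 1)
        unfold Near
        omega
      · refine adj _ _ (by simp) ?_
        show Near m (2 * i + 1) (2 * i + 1)
        unfold Near
        omega
      · refine adj _ _ (by simp; omega) ?_
        show Near m (2 * i + 1) (2 * (i + 1))
        unfold Near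
        omega
      · refine adj _ _ (by simp) ?_
        show Near m (2 * i + 1) (2 * (i + 1))
        unfold Near
        omega
  refine c.valid (v := .inl ⟨2 * (m + 1), by omega⟩) (w := .inl ⟨0, by omega⟩) ?_
    (key (m + 1) (by omega))
  refine adj_iff.2 ⟨by simp, ?_⟩
  show Near m (2 * (m + 1)) 0
  unfold Near
  omega

/-- The colours: `0` on the even positions except the last one, `3` there, `1` and `2` on the two
vertices at an odd position. -/
def col {m : ℕ} : Vert m → Fin 4
  | .inl p => if (p : ℕ) % 2 = 1 then 1 else if (p : ℕ) = 2 * m + 2 then 3 else 0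
  | .inr _ => 2

theorem colorable {m : ℕ} : (diamondRing m).Colorable 4 := by
  refine ⟨Coloring.mk col ?_⟩
  intro x y h
  obtain ⟨h1, h2⟩ := adj_iff.1 h
  rcases x with p | i <;> rcases y with q | j
  · have hp := p.2
    have hq := q.2
    have hpq : (p : ℕ) ≠ q := fun h => h1 (congrArg _ (Fin.ext h))
    simp only [pos, Near] at h2
    simp only [col]
    split_ifs <;> first | decide | (exfalso; omega)
  · simp only [col]
    split_ifs <;> decide
  · simp only [col]
    split_ifs <;> decide
  · exfalso
    have hij : (i : ℕ) ≠ j := fun h => h1 (congrArg _ (Fin.ext h))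
    have hi := i.2
    have hj := j.2
    simp only [pos, Near] at h2
    omega

theorem chromatic {m : ℕ} : (diamondRing m).chromaticNumber = 4 := by
  refine le_antisymm ?_ ?_
  · exact_mod_cast colorable.chromaticNumber_le
  · by_contra h
    rw [not_le] at h
    have h3 : (diamondRing m).chromaticNumber ≤ (3 : ℕ) := by
      have h4 : (diamondRing m).chromaticNumber < (3 : ℕ∞) + 1 := by
        rw [show (3 : ℕ∞) + 1 = 4 by norm_num]
        exact h
      exact_mod_cast (ENat.lt_add_one_iff (by simp)).1 h4
    exact not_colorable (chromaticNumber_le_iff_colorable.1 h3)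

/-! ### The clique models -/

theorem HasModel.mono {V : Type} {G : SimpleGraph V} {m s t : ℕ} (hst : s ≤ t)
    (h : HasModel m t G) : HasModel m s G := by
  obtain ⟨B, h1, h2⟩ := h
  exact ⟨fun i => B (Fin.castLE hst i), fun i => h1 _,
    fun i j hij => h2 _ _ fun h => hij (Fin.castLE_injective hst h)⟩

theorem HasModel.of_induce {V : Type} {G : SimpleGraph V} {S : Set V} {m t : ℕ}
    (h : HasModel m t (G.induce S)) : HasModel m t G := by
  obtain ⟨B, h1, h2⟩ := h
  refine ⟨fun i => (B i).map (Function.Embedding.subtype _), fun i => ⟨?_, ?_, ?_⟩,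
    fun i j hij => ⟨?_, ?_⟩⟩
  · exact (h1 i).1.map
  · rw [Finset.card_map]
    exact (h1 i).2.1
  · refine (h1 i).2.2.map (G := (G.induce S).induce (B i : Set S))
      ⟨fun x => ⟨x.1.1, by simp⟩, fun h => h⟩ ?_
    rintro ⟨x, hx⟩
    simp only [Finset.coe_map, Function.Embedding.subtype_apply, Set.mem_image,
      Finset.mem_coe] at hx
    obtain ⟨y, hy, rfl⟩ := hx
    exact ⟨⟨y, hy⟩, rfl⟩
  · rw [Finset.disjoint_map]
    exact (h2 i j hij).1
  · obtain ⟨_, u, hu, v, hv, huv⟩ := h2 i j hij
    exact ⟨u, by simpa using hu, v, by simpa using hv, huv⟩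

theorem triangle {m : ℕ} (hm : 1 ≤ m) : HasModel m 3 (diamondRing m) := by
  have hadj : ∀ i j : Fin 3, i ≠ j →
      (diamondRing m).Adj ((![.inl ⟨0, by omega⟩, .inl ⟨1, by omega⟩, .inr ⟨0, by omega⟩] :
        Fin 3 → Vert m) i) ((![.inl ⟨0, by omega⟩, .inl ⟨1, by omega⟩, .inr ⟨0, by omega⟩] :
        Fin 3 → Vert m) j) := by
    intro i j hij
    refine adj_iff.2 ⟨?_, ?_⟩
    · fin_cases i <;> fin_cases j <;> simp at hij ⊢
    · fin_cases i <;> fin_cases j <;> simp [pos, Near] at hij ⊢
  refine ⟨fun i => {(![.inl ⟨0, by omega⟩, .inl ⟨1, by omega⟩, .inr ⟨0, by omega⟩] :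
    Fin 3 → Vert m) i}, fun i => ⟨Finset.singleton_nonempty _, ?_, ?_⟩, fun i j hij => ⟨?_, ?_⟩⟩
  · rw [Finset.card_singleton]
    exact hm
  · rw [Finset.coe_singleton]
    exact ⟨Preconnected.of_subsingleton⟩
  · rw [Finset.disjoint_singleton]
    exact (hadj i j hij).ne
  · exact ⟨_, Finset.mem_singleton_self _, _, Finset.mem_singleton_self _, hadj i j hij⟩

theorem had_ring {m : ℕ} (hm : 1 ≤ m) : had m (diamondRing m) = 3 := by
  refine IsGreatest.csSup_eq ⟨triangle hm, ?_⟩
  intro t ht
  by_contra h
  rw [not_le] at h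
  exact no_model (HasModel.mono h ht)

theorem not_inClass {m : ℕ} : ¬ InClass m (diamondRing m) := by
  intro h
  have h1 := h Set.univ
  have h2 : had m ((diamondRing m).induce Set.univ) ≤ 3 := by
    refine csSup_le' ?_
    intro t ht
    by_contra h3
    rw [not_le] at h3
    exact no_model (HasModel.mono h3 ht).of_induce
  have h4 : ((diamondRing m).induce Set.univ).chromaticNumber ≤ (3 : ℕ) :=
    h1.trans (by exact_mod_cast h2)
  have h5 := chromaticNumber_le_iff_colorable.1 h4
  exact not_colorable (h5.of_hom (G := diamondRing m) ⟨fun x => ⟨x, trivial⟩, fun h => h⟩)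

/-! ### Induced cycles -/

theorem cycle_le {m l : ℕ} (h : HasInducedCycle l (diamondRing m)) : l ≤ 2 * m + 3 := by
  obtain ⟨S, ⟨e⟩⟩ := h
  by_contra hl
  obtain ⟨n, rfl⟩ : ∃ n, l = n + 4 := ⟨l - 4, by omega⟩
  have hadj : ∀ i j : Fin (n + 4), (diamondRing m).Adj (e i).1 (e j).1 ↔ i - j = 1 ∨ j - i = 1 := by
    intro i j
    have h1 := e.map_adj_iff (v := i) (w := j)
    exact h1.trans (cycleGraph_adj (n := n + 2))
  have hstep : ∀ i j : Fin (n + 4), pos (e i).1 = pos (e j).1 → j - i = 1 → False := by
    intro i j hij h1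
    have h2 : (diamondRing m).Adj (e (i - 1)).1 (e i).1 := (hadj _ _).2 (Or.inr (by abel))
    have hj : j = i + 1 := by
      rw [← h1]
      abel
    have hv1 : ((1 : Fin (n + 4)) : ℕ) = 1 := rfl
    have hv2 : ((1 + 1 : Fin (n + 4)) : ℕ) = 2 := by
      rw [Fin.val_add, hv1, Nat.mod_eq_of_lt (by omega)]
    have hv3 : ((1 + 1 + 1 : Fin (n + 4)) : ℕ) = 3 := by
      rw [Fin.val_add, hv2, hv1, Nat.mod_eq_of_lt (by omega)]
    have h3 : (e (i - 1)).1 ≠ (e j).1 := by
      intro h4
      have h5 : i - 1 = j := e.injective (Subtype.ext h4)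
      have h6 : (1 + 1 : Fin (n + 4)) = 0 := by
        have h7 : i - 1 = i + 1 := h5.trans hj
        have h8 : (1 + 1 : Fin (n + 4)) = (i + 1) - (i - 1) := by
          abel
        rw [h8, h7]
        exact sub_self _
      have h9 := congrArg Fin.val h6
      rw [hv2, Fin.val_zero] at h9
      omega
    have h4 : (diamondRing m).Adj (e (i - 1)).1 (e j).1 := by
      refine adj_iff.2 ⟨h3, ?_⟩
      rw [← hij]
      exact (adj_iff.1 h2).2
    rcases (hadj _ _).1 h4 with h5 | h5
    · have h6 : (1 + 1 + 1 : Fin (n + 4)) = 0 := by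
        have h8 : (1 + 1 + 1 : Fin (n + 4)) = 1 - ((i - 1) - j) := by
          rw [hj]
          abel
        rw [h8, h5]
        exact sub_self _
      have h9 := congrArg Fin.val h6
      rw [hv3, Fin.val_zero] at h9
      omega
    · have h6 : (1 : Fin (n + 4)) = 0 := by
        have h8 : (1 : Fin (n + 4)) = (j - (i - 1)) - 1 := by
          rw [hj]
          abel
        rw [h8, h5]
        exact sub_self _
      have h9 := congrArg Fin.val h6
      rw [hv1, Fin.val_zero] at h9
      omega
  have hinj : Function.Injective fun i : Fin (n + 4) =>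
      (⟨pos (e i).1, by have := pos_le (e i).1; omega⟩ : Fin (2 * m + 3)) := by
    intro i j hij
    have h1 : pos (e i).1 = pos (e j).1 := congrArg Fin.val hij
    by_contra hne
    have h2 : (diamondRing m).Adj (e i).1 (e j).1 :=
      adj_iff.2 ⟨fun h => hne (e.injective (Subtype.ext h)), Or.inl h1⟩
    rcases (hadj _ _).1 h2 with h3 | h3
    · exact hstep j i h1.symm h3
    · exact hstep i j h1 h3
  have h1 := Fintype.card_le_of_injective _ hinj
  rw [Fintype.card_fin, Fintype.card_fin] at h1
  exact hl h1

/-- For every `m ≥ 3` there is a graph with `3 * m + 4` vertices and no induced cycle on more than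
`2 * m + 3` vertices, hence no induced `C_(2k+1)` with `k ≥ 3m/2`, such that `had_m(G) = 3` and
`χ(G) = 4`; so `G` is not in the class `C_m`. -/
theorem result (m : ℕ) (hm : 3 ≤ m) :
    ∃ (V : Type) (_ : Fintype V) (G : SimpleGraph V), Fintype.card V = 3 * m + 4 ∧
      (∀ l : ℕ, HasInducedCycle l G → l ≤ 2 * m + 3) ∧ NoLongOddCycle m G ∧
      had m G = 3 ∧ G.chromaticNumber = 4 ∧ ¬ InClass m G := by
  refine ⟨Vert m, inferInstance, diamondRing m, ?_, fun l h => cycle_le h, fun k hk h => ?_,
    had_ring (by omega), chromatic, not_inClass⟩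
  · rw [Fintype.card_sum, Fintype.card_fin, Fintype.card_fin]
    omega
  · have := cycle_le h
    omega

end Pool.Agent.Results.MP_85b484_co.DiamondRings
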